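import Pool.Agent.Lib_helper64.TD.Defs
import Pool.Agent.Lib_helper57.AFF.Defs
import Pool.Agent.Lib_helper20.MSK.Defs

/-!
# The all-levels induction for closed oracles: definitions, part A (MP_675993_lc)

The paper proof is `MSK_helper20.md`, section 2.
-/

set_option autoImplicit false

namespace Pool.Agent.TD.TF

open Pool.Agent.CK

/-- The supports of the queries and the pointers. -/
structure Msk where
  T : Str → Finset Str
  P : Lang
  short : AFF.Short T
  genP : AFF.GenP T P
  nil : T [] = ∅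
  one : ∀ w, T (false :: w) = {w}

/-- the linear scheme of the cells with positions in `[s, L)` -/
def Msk.ls (M : Msk) (s L : ℕ) : MSK.LS (AFF.Cell s L) where
  cell := Subtype.val
  inj := Subtype.val_injective
  J := AFF.Jv M.T M.P s L
  C := AFF.Cv M.T M.P s L
  cst := AFF.cst M.T M.P s L
  len := by
    intro v w h
    have h1 : false :: M.P w.1 :: w.1 ∈ M.T v := by
      by_contra hcon
      exact h (if_neg hcon)
    have h2 := M.short v _ h1
    simp only [List.length_cons] at h2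
    omega

/-- the plain oracle with masks on the positions of length less than `s` -/
def Msk.mx (M : Msk) (s : ℕ) (O R : Lang) : Lang := AFF.mix M.T M.P s O R

/-- the final oracle -/
def Msk.big (M : Msk) (O R : Lang) : Lang := AFF.Lam M.T (AFF.emb M.P O R)

/-! ## Numerical parameters -/

/-- `Λ(n)`, larger than `n / (log n)^9` -/
def LamQ (n : ℕ) : ℕ := 2 ^ (Nat.log 2 n + 1) / (Nat.log 2 n) ^ 9 + 1
/-- number of relevant stages -/
def KQ (n : ℕ) : ℕ := (Nat.log 2 (LamQ n) + 1) ^ 2
/-- bound for the length of questions -/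
def ddQ (n : ℕ) : ℕ := 2 ^ LamQ n
/-- exponent of the largest depth -/
def EQ (n : ℕ) : ℕ := LamQ n + KQ n * (2 * LamQ n + 8)
/-- bound for the depth before stage `k` -/
def dQ (k n : ℕ) : ℕ := 2 ^ (LamQ n + (KQ n - k) * (2 * LamQ n + 8))
/-- class size exponent before stage `k` -/
def aQ (k n : ℕ) : ℕ := n / 3 + 2 + (KQ n - k) * (2 * EQ n + 4 * LamQ n + 24)
/-- class size exponent between the table and the mask of stage `k` -/
def aM (k n : ℕ) : ℕ :=
  if k < KQ n then aQ (k + 1) n + (EQ n + 3 * LamQ n + 10) else aQ (k + 1) n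
/-- inverse of the success probability before stage `k` -/
def DelQ (k n : ℕ) : ℕ := 2 ^ (LamQ n + 3 * (KQ n - k))
/-- inverse of the success probability between the table and the mask of stage `k` -/
def DelM (k n : ℕ) : ℕ := if k < KQ n then 2 * DelQ (k + 1) n else DelQ (k + 1) n
/-- memory of the simulations of the mask stage -/
def sQ (k n : ℕ) : ℕ := 2 * ((2 ^ aQ (k + 1) n + n + 2 + 1) * dQ (k + 1) n)
/-- cells per query -/
def btQ (n : ℕ) : ℕ := 3 * (ddQ n + 2) ^ 2
/-- cache of the simulations of the mask stage -/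
def gQ (k n : ℕ) : ℕ := 2 * btQ n * sQ k n

/-! ## Families of adversaries -/

/-- simulations of the mask stage -/
noncomputable def MaskC (M : Msk) (k n : ℕ) (Fm : Set (X (2 * n) → DT Str)) :
    Set (X (2 * n) → DT Str) :=
  (M.ls (sD k) (sD (k + 1))).SimC (ddQ n) (sQ k n) (gQ k n) (dQ (k + 1) n) (dQ k n) Fm

/-- the derived family of the mask stage -/
noncomputable def MaskF (M : Msk) (k : ℕ) (Fm : Fam) : Fam := fun n =>
  if k < KQ n then MaskC M k n (Fm n) else Fm n

/-- bounds for number, depth and questions -/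
def BddX (n0 : ℕ) (a d ℓ : ℕ → ℕ) (Fm : Fam) : Prop :=
  ∀ n, n0 ≤ n → CardBd (Fm n) (2 ^ a n) ∧
    ∀ A ∈ Fm n, ∀ x, (A x).depth ≤ d n ∧ (A x).AllQ fun w => w.length ≤ ℓ n

/-- all adversaries of the family are defeated -/
def DefX (n0 : ℕ) (Δ : ℕ → ℕ) (S : Sec) (O : Lang) (Fm : Fam) : Prop :=
  ∀ n, n0 ≤ n → ∀ A ∈ Fm n, Δ n * hits n (vv S n) A O < 4 ^ n

/-- bounds before stage `k` -/
def BddQ (n0 k : ℕ) (Fm : Fam) : Prop := BddX n0 (aQ k) (dQ k) ddQ Fm

/-- bounds between the table and the mask of stage `k` -/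
def BddM (n0 k : ℕ) (Fm : Fam) : Prop := BddX n0 (aM k) (dQ k) ddQ Fm

/-- the final family with horizon `N` -/
def FinQ (N : ℕ) : Fam := fun n =>
  {A | n ≤ N ∧ ∃ c : Cmd, Encodable.encode c ≤ n ∧ ∃ w : Str, w.length ≤ 2 ^ (LamQ n - 1) ∧
    ∃ t ≤ 2 ^ (LamQ n - 1), A = fun x => AFF.ren ((runTree t ([c], init x.1 w)).map
      fun cf => cf.2 0)}

/-- security at level `n` relative to the oracle `O` -/
def SecQ (S : Sec) (O : Lang) (n : ℕ) : Prop :=
  ∀ c : Cmd, Encodable.encode c ≤ n → ∀ w : Str, w.length ≤ 2 ^ (LamQ n - 1) →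
    ∀ t ≤ 2 ^ (LamQ n - 1), 2 ^ LamQ n *
      (Finset.univ.filter fun x : X (2 * n) => (run O c x.1 w t).2 0 = vv S n x).card < 4 ^ n

end Pool.Agent.TD.TF
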