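import Pool.Agent.Lib_helper20.TF.DefsA
import Pool.Agent.Lib_helper74.IS.Defs

/-!
# The all-levels induction for closed oracles: definitions, part B (the table stage)
-/

set_option autoImplicit false

namespace Pool.Agent.TD.TF

open Pool.Agent.CK Pool.Agent.TD.IS

/-! ## The table stage over the oracle with masks: positions are content probes -/

/-- the data of the stage `k` -/
noncomputable def stgQ (k : ℕ) : Stg (Z k) (Q k) (ℕ × Bool) where
  ps := AFF.lp (posK k)
  ln z := z.1.length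
  rd q i := bit q.1 i
  rz o i := bit (zs o) i

/-- number of rounds -/
def rT (k n : ℕ) : ℕ := 2 ^ aM k n + n + 3
/-- number of known entries -/
def sT (k n : ℕ) : ℕ := rT k n * dQ k n

/-- Simulations. -/
def SimQ (k n : ℕ) (Fm : Set (X (2 * n) → DT Str)) : Set (X (2 * n) → DT Str) :=
  {A' | ∃ A ∈ Fm, ∃ ρ : List (Z k × Q k), ρ.length ≤ sT k n ∧ ∃ r : List (Q k),
    r.length = dQ k n ∧ A' = fun x => simI (stgQ k) [] (A x) ρ r}

/-- the tree of a test -/
noncomputable def treeQ {k : ℕ} (t : Tst k) (q : Q k) : DT Bool :=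
  (simI (stgQ k) [] t.τ t.ρ (t.pre ++ q :: t.post)).map fun y => y == t.b

/-- admissible tests -/
def TstOKQ (n0 k : ℕ) (Fm : Fam) (t : Tst k) : Prop :=
  ∃ n, n0 ≤ n ∧ n < 3 * sM k ∧ k < KQ n ∧ (∃ A ∈ Fm n, ∃ x, t.τ = A x) ∧ t.b.length = n ∧
    t.ρ.length ≤ sT k n ∧ t.pre.length ≤ dQ k n ∧ t.post.length ≤ dQ k n

/-- inverse of the hard core parameter -/
def NQ (k : ℕ) : ℕ := 8 * 2 ^ EQ (3 * sM k) * 2 ^ (LamQ (3 * sM k) + 3 * KQ (3 * sM k))
/-- bound for the number of tests -/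
def lenQ (k : ℕ) : ℕ := 4 * (NQ k) ^ 2 * (2 * (qb k + 1) + 1)

/-- The reduction with its questions answered by a threshold of tests and a list of exceptions;
the questions of the reduction to the oracle are parity queries. -/
def CmpQ (n0 k : ℕ) (Fm : Fam) (n : ℕ) : Set (X (2 * n) → DT Str) :=
  {A' | n = sn k ∧ ∃ l : List (Tst k), l.length ≤ lenQ k ∧ (∀ t ∈ l, TstOKQ n0 k Fm t) ∧
    ∃ θ ≤ l.length + 1, ∃ E : List (Str × Bool), E.length ≤ excI k ∧
      (∀ p ∈ E, p.1.length ≤ qb k) ∧ ∃ w : Str, w.length ≤ (3 * sn k + 2) ^ sj k ∧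
      A' = fun x => DT.tr (thrX (l.map treeQ) θ E) (AFF.ren2 (invTreeW (iM (sj k)) w n x.1))}

open Classical in
/-- The derived family of the table stage. -/
noncomputable def NextQ (t0 : ℕ → ℕ) (n0 k : ℕ) (Fm : Fam) : Fam := fun n =>
  if Act t0 k then (if k < KQ n then SimQ k n (Fm n) else Fm n) ∪ CmpQ n0 k Fm n else Fm n

/-- the families at the stages `top - r` -/
noncomputable def ClQ (M : Msk) (t0 : ℕ → ℕ) (n0 : ℕ) (fin : Fam) (top : ℕ) : ℕ → Fam
  | 0 => fin
  | r + 1 => NextQ t0 n0 (top - (r + 1)) (MaskF M (top - (r + 1)) (ClQ M t0 n0 fin top r))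

/-! ## Numerical conditions -/

/-- numerical conditions for a level -/
structure NumQ (n : ℕ) : Prop where
  /-- the conditions of the landed base theorem -/
  old : NumN n
  /-- domination -/
  hE : EQ n ≤ Lam n
  hA : aQ 0 n ≤ aa 0 n
  hDel : LamQ n + 3 * KQ n ≤ Lam n + 2 * KK n
  /-- the programs of the final family -/
  hb : 2 * n ≤ 2 ^ (LamQ n - 1)
  hL : LamQ n ≤ n / 3
  /-- the stages `k ≥ n` are irrelevant for the level `n` -/
  hK : KQ n ≤ n
  /-- monotonicity holds above `n` -/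
  h13 : 13 ≤ Nat.log 2 n

/-- numerical conditions for an active stage -/
structure NumKQ (n0 k : ℕ) : Prop where
  /-- level `sn k` is protected and stage `k` is relevant for it -/
  hn0 : n0 ≤ sn k
  hK : k < KQ (sn k)
  /-- depth and lengths of the inversion tree with tests -/
  hdepth : sn k * ((3 * sn k + 2) ^ (sj k) * (lenQ k * 2 ^ EQ (3 * sM k) + 1)) ≤ ddQ (sn k)
  hlen : qb k + 1 ≤ ddQ (sn k)
  hdd : ddQ (3 * sM k) ≤ ddQ (sn k)
  /-- number of derived adversaries -/
  hcard : (lenQ k + 2) * 2 ^ (aQ 0 (3 * sM k) + 2) + lenQ k + 2 +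
    (excI k + 1) * (qb k + 4) ≤ 2 ^ (sn k / 3)
  /-- probability of a hit of an inverse question -/
  heps : NQ k ≤ 2 ^ (3 * sM k)

end Pool.Agent.TD.TF
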